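import Pool.Agent.Lib.MP_d10f6f_co.Main

/-!
Upper bound for the weak rainbow saturation number of complete graphs.
-/

namespace Pool.Agent.Results.MP_d10f6f_co.LinearUpperBound

open Pool.Agent.Lib.MP_d10f6f_co

/-- For every `r ≥ 3` and `n ≥ r - 1`: `rwsat(n, K_r) ≤ (r - 1) n - r (r - 1) / 2`. -/
theorem result : ∀ r n : ℕ, 3 ≤ r → r - 1 ≤ n → rwsat n r + r.choose 2 ≤ (r - 1) * n :=
  fun r n hr hn => main r n hr hn

end Pool.Agent.Results.MP_d10f6f_co.LinearUpperBound
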